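import Pool.Agent.Q192.NC.Geo

/-!
# The dual of the neighborly 3-sphere with 8 vertices is not a 3-complex

`Q192.NC.tet` lists the 20 tetrahedra of the neighborly simplicial 3-sphere M (vertices
A, ..., H = 0, ..., 7), and `Q192.NC.IsSimplex S` says that `S` is a nonempty face of M.
-/

open Q192.NC

namespace Pool.Agent.Results.MP_a4d28a_co.NotThreeComplex

/-- A (nonempty) convex polytope: the convex hull of a nonempty finite set of points. -/
def IsPolytope {n : ℕ} (Q : Set (EuclideanSpace ℝ (Fin n))) : Prop :=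
  ∃ s : Finset (EuclideanSpace ℝ (Fin n)), s.Nonempty ∧ Q = convexHull ℝ (s : Set _)

/-- `F` is a nonempty face of the polytope `Q`: the set of maximizers on `Q` of some linear
functional (the zero functional gives `Q` itself). -/
def IsFace {n : ℕ} (Q F : Set (EuclideanSpace ℝ (Fin n))) : Prop :=
  F.Nonempty ∧ IsExposed ℝ Q F

/-- The dimension of (the affine hull of) a nonempty set. -/
noncomputable def dim {n : ℕ} (Q : Set (EuclideanSpace ℝ (Fin n))) : ℕ :=
  Module.finrank ℝ (vectorSpan ℝ Q)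

/-- A 3-complex in `ℝ^n`: a finite family of convex polytopes, closed under taking faces, any two
members of which meet in a common face (if they meet at all), the largest dimension of a member
being 3. -/
structure IsThreeComplex {n : ℕ} (C : Set (Set (EuclideanSpace ℝ (Fin n)))) : Prop where
  finite : C.Finite
  polytope : ∀ Q ∈ C, IsPolytope Q
  face_mem : ∀ Q ∈ C, ∀ F, IsFace Q F → F ∈ C
  inter_face : ∀ Q ∈ C, ∀ R ∈ C, (Q ∩ R).Nonempty → IsFace Q (Q ∩ R) ∧ IsFace R (Q ∩ R)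
  dim_le : ∀ Q ∈ C, dim Q ≤ 3
  dim_eq : ∃ Q ∈ C, dim Q = 3

/-- The family `C` is combinatorially equivalent to the dual cell complex of M, whose face poset
is the set of nonempty faces of M ordered by reverse inclusion. -/
def IsEquivToDual {n : ℕ} (C : Set (Set (EuclideanSpace ℝ (Fin n)))) : Prop :=
  ∃ Ψ : {S : Finset (Fin 8) // IsSimplex S} ≃ {Q : Set (EuclideanSpace ℝ (Fin n)) // Q ∈ C},
    ∀ S S', S.1 ⊆ S'.1 ↔ (Ψ S').1 ⊆ (Ψ S).1

/-- No 3-complex in any `ℝ^n` is combinatorially equivalent to the dual of M. -/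
theorem result : ∀ (n : ℕ) (C : Set (Set (EuclideanSpace ℝ (Fin n)))),
    IsThreeComplex C → ¬ IsEquivToDual C := by
  classical
  rintro n C hC ⟨Ψ, hΨ⟩
  let Q : Finset (Fin 8) → Set (EuclideanSpace ℝ (Fin n)) := fun S =>
    if h : IsSimplex S then (Ψ ⟨S, h⟩).1 else ∅
  have hQ : ∀ S (h : IsSimplex S), Q S = (Ψ ⟨S, h⟩).1 := fun S h => dif_pos h
  have hQC : ∀ S, IsSimplex S → Q S ∈ C := fun S h => by rw [hQ S h]; exact (Ψ ⟨S, h⟩).2
  obtain ⟨p, hp⟩ := conf_of Q
    (fun S hS => hC.polytope _ (hQC S hS))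
    (fun S hS F hF hex => by
      have hFC := hC.face_mem _ (hQC S hS) F ⟨hF, hex⟩
      refine ⟨(Ψ.symm ⟨F, hFC⟩).1, (Ψ.symm ⟨F, hFC⟩).2, ?_⟩
      rw [hQ _ (Ψ.symm ⟨F, hFC⟩).2]
      simp)
    (fun S S' hS hS' h => (hC.inter_face _ (hQC S hS) _ (hQC S' hS') h).1.2)
    (fun S S' hS hS' => by
      rw [hQ S hS, hQ S' hS']
      exact hΨ ⟨S, hS⟩ ⟨S', hS'⟩)
  exact no_conf hp

end Pool.Agent.Results.MP_a4d28a_co.NotThreeComplex
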